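import Pool.Agent.H972ST.Stmts

set_option autoImplicit false
set_option maxHeartbeats 4000000

/-! Task Hull of the project H972-ST. -/

open Pointwise

namespace Pool.Agent.H66R3.ST

open Pool.Agent.H972ST

/-! ### convexity lemmas -/

section
variable {V : Type} [AddCommGroup V] [Module ℝ V]

theorem seg {C : Set V} (hC : Convex ℝ C) (u w : V) (h1 : (1 : ℝ) • w + u ∈ C)
    (h2 : (-1 : ℝ) • w + u ∈ C) (t : ℝ) (ht : |t| ≤ 1) : t • w + u ∈ C := by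
  have h3 := abs_le.1 ht
  have h4 := hC h1 h2 (show 0 ≤ (1 + t) / 2 by linarith) (show 0 ≤ (1 - t) / 2 by linarith)
    (by ring)
  have e : ((1 + t) / 2) • ((1 : ℝ) • w + u) + ((1 - t) / 2) • ((-1 : ℝ) • w + u) = t • w + u := by
    module
  rwa [e] at h4

theorem cube {C : Set V} (hC : Convex ℝ C) (f g h : V)
    (H : ∀ s1 s2 s3 : ℝ, (s1 = 1 ∨ s1 = -1) → (s2 = 1 ∨ s2 = -1) → (s3 = 1 ∨ s3 = -1) →
      s1 • f + s2 • g + s3 • h ∈ C) (a b c : ℝ) (ha : |a| ≤ 1) (hb : |b| ≤ 1) (hc : |c| ≤ 1) :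
    a • f + b • g + c • h ∈ C := by
  have h1 : ∀ s2 s3 : ℝ, (s2 = 1 ∨ s2 = -1) → (s3 = 1 ∨ s3 = -1) →
      a • f + (s2 • g + s3 • h) ∈ C := fun s2 s3 h2 h3 =>
    seg hC (s2 • g + s3 • h) f
      (by rw [← add_assoc]; exact H 1 s2 s3 (Or.inl rfl) h2 h3)
      (by rw [← add_assoc]; exact H (-1) s2 s3 (Or.inr rfl) h2 h3) a ha
  have h2 : ∀ s3 : ℝ, (s3 = 1 ∨ s3 = -1) → b • g + (a • f + s3 • h) ∈ C := fun s3 h3 =>
    seg hC (a • f + s3 • h) g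
      (by rw [add_left_comm]; exact h1 1 s3 (Or.inl rfl) h3)
      (by rw [add_left_comm]; exact h1 (-1) s3 (Or.inr rfl) h3) b hb
  have h3 : c • h + (a • f + b • g) ∈ C :=
    seg hC (a • f + b • g) h
      (by have := h2 1 (Or.inl rfl); convert this using 1; abel)
      (by have := h2 (-1) (Or.inr rfl); convert this using 1; abel) c hc
  convert h3 using 1
  abel

theorem cubel {C : Set V} (hC : Convex ℝ C) (h0 : (0 : V) ∈ C) (f g h : V)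
    (H : ∀ s1 s2 s3 : ℝ, (s1 = 1 ∨ s1 = -1) → (s2 = 1 ∨ s2 = -1) → (s3 = 1 ∨ s3 = -1) →
      s1 • f + s2 • g + s3 • h ∈ C) (l a b c : ℝ) (hl : 0 ≤ l) (ha : |a| ≤ l) (hb : |b| ≤ l)
    (hc : |c| ≤ l) : a • f + b • g + c • h ∈ l • C := by
  rcases hl.eq_or_lt with hl0 | hl0
  · subst hl0
    have ha' : a = 0 := abs_eq_zero.1 (le_antisymm ha (abs_nonneg a))
    have hb' : b = 0 := abs_eq_zero.1 (le_antisymm hb (abs_nonneg b))
    have hc' : c = 0 := abs_eq_zero.1 (le_antisymm hc (abs_nonneg c))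
    refine ⟨0, h0, ?_⟩
    simp [ha', hb', hc']
  · refine ⟨(a / l) • f + (b / l) • g + (c / l) • h, cube hC f g h H _ _ _ ?_ ?_ ?_, ?_⟩
    · rw [abs_div, abs_of_pos hl0]; exact (div_le_one hl0).2 ha
    · rw [abs_div, abs_of_pos hl0]; exact (div_le_one hl0).2 hb
    · rw [abs_div, abs_of_pos hl0]; exact (div_le_one hl0).2 hc
    · simp only [smul_add, smul_smul, mul_div_cancel₀ _ hl0.ne']

theorem one_l {C : Set V} (f : V) (h1 : f ∈ C) (h2 : -f ∈ C) (a : ℝ) : a • f ∈ |a| • C := by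
  rcases abs_cases a with ⟨h, -⟩ | ⟨h, -⟩
  · rw [h]
    exact ⟨f, h1, rfl⟩
  · rw [h]
    exact ⟨-f, h2, by simp⟩
end

/-- splitting a number -/
theorem split (z l m : ℝ) (hl : 0 ≤ l) (hm : 0 ≤ m) (h : |z| ≤ l + m) :
    ∃ a b : ℝ, z = a + b ∧ |a| ≤ l ∧ |b| ≤ m := by
  have h1 := abs_le.1 h
  rcases le_total z l with h2 | h2
  · rcases le_total (-l) z with h3 | h3
    · exact ⟨z, 0, by ring, abs_le.2 ⟨h3, h2⟩, by simpa using hm⟩
    · refine ⟨-l, z + l, by ring, abs_le.2 ⟨le_rfl, by linarith⟩, abs_le.2 ⟨by linarith, by linarith⟩⟩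
  · refine ⟨l, z - l, by ring, abs_le.2 ⟨by linarith, le_rfl⟩, abs_le.2 ⟨by linarith, by linarith⟩⟩

/-! ### coordinates -/

/-- real point with given coordinates -/
noncomputable def pt (n1 n2 n3 n4 y1 y2 y3 y4 : ℝ) : Fin 8 → ℝ :=
  ![n1, n2, n3, n4, y1 - n1 - n2, (y2 - y1 + n1) / 2, (y3 - y1 + n2) / 2, (y4 - y1 + n1 + n2) / 2]

/-- integer point with given coordinates -/
def zz (n1 n2 n3 n4 y1 y2 y3 y4 : ℤ) : Fin 8 → ℤ :=
  ![n1, n2, n3, n4, y1 - n1 - n2, (y2 - y1 + n1) / 2, (y3 - y1 + n2) / 2, (y4 - y1 + n1 + n2) / 2]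

def OKz (n1 n2 n3 n4 y1 y2 y3 y4 : ℤ) : Prop :=
  ((∀ i, -2 ≤ zz n1 n2 n3 n4 y1 y2 y3 y4 i ∧ zz n1 n2 n3 n4 y1 y2 y3 y4 i ≤ 2) ∧
    InZ 1 (zz n1 n2 n3 n4 y1 y2 y3 y4)) ∧
    (2 : ℤ) ∣ y2 - y1 + n1 ∧ (2 : ℤ) ∣ y3 - y1 + n2 ∧ (2 : ℤ) ∣ y4 - y1 + n1 + n2

open Classical in
theorem mem_S_iff (z : Fin 8 → ℤ) : z ∈ S ↔ (∀ i, -2 ≤ z i ∧ z i ≤ 2) ∧ InZ 1 z := by
  rw [S, Finset.mem_filter, Fintype.mem_piFinset]
  simp only [Finset.mem_Icc]

theorem memP (n1 n2 n3 n4 y1 y2 y3 y4 : ℤ) (h : OKz n1 n2 n3 n4 y1 y2 y3 y4) :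
    pt n1 n2 n3 n4 y1 y2 y3 y4 ∈ P := by
  obtain ⟨⟨h1, h2⟩, ⟨a, ha⟩, ⟨b, hb⟩, ⟨c, hc⟩⟩ := h
  have h3 : zz n1 n2 n3 n4 y1 y2 y3 y4 ∈ S := by
    exact (mem_S_iff _).2 ⟨h1, h2⟩
  have h4 : pt n1 n2 n3 n4 y1 y2 y3 y4 = fun k => ((zz n1 n2 n3 n4 y1 y2 y3 y4 k : ℤ) : ℝ) := by
    have ha' : ((y2 : ℝ) - y1 + n1) / 2 = (((y2 - y1 + n1) / 2 : ℤ) : ℝ) := by
      have e : ((y2 - y1 + n1 : ℤ) : ℝ) = 2 * a := by rw [ha]; push_cast; ring
      rw [ha, Int.mul_ediv_cancel_left _ (by norm_num)]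
      push_cast at e
      linarith
    have hb' : ((y3 : ℝ) - y1 + n2) / 2 = (((y3 - y1 + n2) / 2 : ℤ) : ℝ) := by
      have e : ((y3 - y1 + n2 : ℤ) : ℝ) = 2 * b := by rw [hb]; push_cast; ring
      rw [hb, Int.mul_ediv_cancel_left _ (by norm_num)]
      push_cast at e
      linarith
    have hc' : ((y4 : ℝ) - y1 + n1 + n2) / 2 = (((y4 - y1 + n1 + n2) / 2 : ℤ) : ℝ) := by
      have e : ((y4 - y1 + n1 + n2 : ℤ) : ℝ) = 2 * c := by rw [hc]; push_cast; ring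
      rw [hc, Int.mul_ediv_cancel_left _ (by norm_num)]
      push_cast at e
      linarith
    funext k
    fin_cases k
    · rfl
    · rfl
    · rfl
    · rfl
    · change (y1 : ℝ) - n1 - n2 = ((y1 - n1 - n2 : ℤ) : ℝ)
      push_cast
      ring
    · exact ha'
    · exact hb'
    · exact hc'
  rw [h4]
  exact subset_convexHull ℝ _ ⟨_, h3, rfl⟩

instance (m : ℤ) (x : Fin 8 → ℤ) : Decidable (InZ m x) := by unfold InZ; infer_instance

instance (n1 n2 n3 n4 y1 y2 y3 y4 : ℤ) : Decidable (OKz n1 n2 n3 n4 y1 y2 y3 y4) := by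
  unfold OKz; infer_instance

theorem star1 : ∀ s1 s2 s3 : ℤ, (s1 = 1 ∨ s1 = -1) → (s2 = 1 ∨ s2 = -1) → (s3 = 1 ∨ s3 = -1) →
    OKz s1 0 0 0 s2 0 s3 0 := by
  rintro _ _ _ (rfl | rfl) (rfl | rfl) (rfl | rfl) <;> decide

theorem star2 : ∀ s1 s2 s3 : ℤ, (s1 = 1 ∨ s1 = -1) → (s2 = 1 ∨ s2 = -1) → (s3 = 1 ∨ s3 = -1) →
    OKz s1 0 0 0 0 s2 0 s3 := by
  rintro _ _ _ (rfl | rfl) (rfl | rfl) (rfl | rfl) <;> decide

theorem star3 : ∀ s1 s2 s3 : ℤ, (s1 = 1 ∨ s1 = -1) → (s2 = 1 ∨ s2 = -1) → (s3 = 1 ∨ s3 = -1) →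
    OKz 0 s1 0 0 s2 s3 0 0 := by
  rintro _ _ _ (rfl | rfl) (rfl | rfl) (rfl | rfl) <;> decide

theorem star4 : ∀ s1 s2 s3 : ℤ, (s1 = 1 ∨ s1 = -1) → (s2 = 1 ∨ s2 = -1) → (s3 = 1 ∨ s3 = -1) →
    OKz 0 s1 0 0 0 0 s2 s3 := by
  rintro _ _ _ (rfl | rfl) (rfl | rfl) (rfl | rfl) <;> decide

/-! ### the hull -/

theorem convP : Convex ℝ P := convex_convexHull _ _

theorem zeroP : (0 : Fin 8 → ℝ) ∈ P := by
  have h := memP 0 0 0 0 0 0 0 0 (by decide)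
  convert h using 1
  funext k
  fin_cases k <;> simp [pt]

/-- basis vectors -/
noncomputable def Bv (i : Fin 8) : Fin 8 → ℝ :=
  pt (if i = 0 then 1 else 0) (if i = 1 then 1 else 0) (if i = 2 then 1 else 0)
    (if i = 3 then 1 else 0) (if i = 4 then 1 else 0) (if i = 5 then 1 else 0)
    (if i = 6 then 1 else 0) (if i = 7 then 1 else 0)

theorem pt_eq (n1 n2 n3 n4 y1 y2 y3 y4 : ℝ) : pt n1 n2 n3 n4 y1 y2 y3 y4 =
    n1 • Bv 0 + n2 • Bv 1 + n3 • Bv 2 + n4 • Bv 3 + y1 • Bv 4 + y2 • Bv 5 + y3 • Bv 6 +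
      y4 • Bv 7 := by
  funext k
  fin_cases k <;> simp [pt, Bv] <;> ring

theorem pm_cast {s : ℝ} (h : s = 1 ∨ s = -1) : ∃ t : ℤ, (t = 1 ∨ t = -1) ∧ (t : ℝ) = s := by
  rcases h with rfl | rfl
  · exact ⟨1, Or.inl rfl, by norm_num⟩
  · exact ⟨-1, Or.inr rfl, by norm_num⟩

theorem st1 (l a b c : ℝ) (hl : 0 ≤ l) (ha : |a| ≤ l) (hb : |b| ≤ l) (hc : |c| ≤ l) :
    a • Bv 0 + b • Bv 4 + c • Bv 6 ∈ l • P := by
  refine cubel convP zeroP _ _ _ ?_ l a b c hl ha hb hc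
  intro s1 s2 s3 h1 h2 h3
  obtain ⟨t1, k1, rfl⟩ := pm_cast h1
  obtain ⟨t2, k2, rfl⟩ := pm_cast h2
  obtain ⟨t3, k3, rfl⟩ := pm_cast h3
  have h := memP _ _ _ _ _ _ _ _ (star1 t1 t2 t3 k1 k2 k3)
  rw [pt_eq] at h
  simpa using h

theorem st2 (l a b c : ℝ) (hl : 0 ≤ l) (ha : |a| ≤ l) (hb : |b| ≤ l) (hc : |c| ≤ l) :
    a • Bv 0 + b • Bv 5 + c • Bv 7 ∈ l • P := by
  refine cubel convP zeroP _ _ _ ?_ l a b c hl ha hb hc
  intro s1 s2 s3 h1 h2 h3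
  obtain ⟨t1, k1, rfl⟩ := pm_cast h1
  obtain ⟨t2, k2, rfl⟩ := pm_cast h2
  obtain ⟨t3, k3, rfl⟩ := pm_cast h3
  have h := memP _ _ _ _ _ _ _ _ (star2 t1 t2 t3 k1 k2 k3)
  rw [pt_eq] at h
  simpa using h

theorem st3 (l a b c : ℝ) (hl : 0 ≤ l) (ha : |a| ≤ l) (hb : |b| ≤ l) (hc : |c| ≤ l) :
    a • Bv 1 + b • Bv 4 + c • Bv 5 ∈ l • P := by
  refine cubel convP zeroP _ _ _ ?_ l a b c hl ha hb hc
  intro s1 s2 s3 h1 h2 h3
  obtain ⟨t1, k1, rfl⟩ := pm_cast h1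
  obtain ⟨t2, k2, rfl⟩ := pm_cast h2
  obtain ⟨t3, k3, rfl⟩ := pm_cast h3
  have h := memP _ _ _ _ _ _ _ _ (star3 t1 t2 t3 k1 k2 k3)
  rw [pt_eq] at h
  simpa using h

theorem st4 (l a b c : ℝ) (hl : 0 ≤ l) (ha : |a| ≤ l) (hb : |b| ≤ l) (hc : |c| ≤ l) :
    a • Bv 1 + b • Bv 6 + c • Bv 7 ∈ l • P := by
  refine cubel convP zeroP _ _ _ ?_ l a b c hl ha hb hc
  intro s1 s2 s3 h1 h2 h3
  obtain ⟨t1, k1, rfl⟩ := pm_cast h1
  obtain ⟨t2, k2, rfl⟩ := pm_cast h2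
  obtain ⟨t3, k3, rfl⟩ := pm_cast h3
  have h := memP _ _ _ _ _ _ _ _ (star4 t1 t2 t3 k1 k2 k3)
  rw [pt_eq] at h
  simpa using h

theorem st5 (a : ℝ) : a • Bv 2 ∈ |a| • P := by
  refine one_l _ ?_ ?_ a
  · have h := memP 0 0 1 0 0 0 0 0 (by decide)
    rw [pt_eq] at h
    simpa using h
  · have h := memP 0 0 (-1) 0 0 0 0 0 (by decide)
    rw [pt_eq] at h
    simpa using h

theorem st6 (a : ℝ) : a • Bv 3 ∈ |a| • P := by
  refine one_l _ ?_ ?_ a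
  · have h := memP 0 0 0 1 0 0 0 0 (by decide)
    rw [pt_eq] at h
    simpa using h
  · have h := memP 0 0 0 (-1) 0 0 0 0 (by decide)
    rw [pt_eq] at h
    simpa using h

theorem eq_pt (x : Fin 8 → ℝ) : x = pt (x 0) (x 1) (x 2) (x 3) (r1 x) (r2 x) (r3 x) (r4 x) := by
  funext k
  fin_cases k <;> simp [pt, r1, r2, r3, r4] <;> ring

theorem sup (hT : TCover) (x : Fin 8 → ℝ) (hx : InR 1 x) : x ∈ P := by
  obtain ⟨h1, h2, h3, h4, h5, h6, h7⟩ := hx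
  obtain ⟨l1, l2, l3, l4, p1, p2, p3, p4, hs, c12, c13, c14, c23, c24, c34⟩ :=
    hT (1 - |x 2| - |x 3|) |x 0| |r1 x| |r3 x| |r2 x| |r4 x| |x 1| (abs_nonneg _) (abs_nonneg _)
      (abs_nonneg _) (abs_nonneg _) (abs_nonneg _) (abs_nonneg _) (by linarith) (by linarith)
      (by linarith) (by linarith) (by linarith) (by linarith) (by linarith)
  obtain ⟨a12, b12, e12, u12, v12⟩ := split _ _ _ p1 p2 c12
  obtain ⟨a13, b13, e13, u13, v13⟩ := split _ _ _ p1 p3 c13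
  obtain ⟨a14, b14, e14, u14, v14⟩ := split _ _ _ p1 p4 c14
  obtain ⟨a23, b23, e23, u23, v23⟩ := split _ _ _ p2 p3 c23
  obtain ⟨a24, b24, e24, u24, v24⟩ := split _ _ _ p2 p4 c24
  obtain ⟨a34, b34, e34, u34, v34⟩ := split _ _ _ p3 p4 c34
  -- star 1: n1, y1, y3; star 2: n1, y2, y4; star 3: n2, y1, y2; star 4: n2, y3, y4
  have m1 := st1 l1 a12 a13 a14 p1 u12 u13 u14
  have m2 := st2 l2 b12 a23 a24 p2 v12 u23 u24
  have m3 := st3 l3 a34 b13 b23 p3 u34 v13 v23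
  have m4 := st4 l4 b34 b14 b24 p4 v34 v14 v24
  have m5 := st5 (x 2)
  have m6 := st6 (x 3)
  have q1 := Set.add_mem_add m1 m2
  rw [← convP.add_smul p1 p2] at q1
  have q2 := Set.add_mem_add q1 m3
  rw [← convP.add_smul (add_nonneg p1 p2) p3] at q2
  have q3 := Set.add_mem_add q2 m4
  rw [← convP.add_smul (add_nonneg (add_nonneg p1 p2) p3) p4] at q3
  have q4 := Set.add_mem_add q3 m5
  rw [← convP.add_smul (add_nonneg (add_nonneg (add_nonneg p1 p2) p3) p4) (abs_nonneg _)] at q4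
  have q5 := Set.add_mem_add q4 m6
  rw [← convP.add_smul (add_nonneg (add_nonneg (add_nonneg (add_nonneg p1 p2) p3) p4)
    (abs_nonneg _)) (abs_nonneg _)] at q5
  obtain ⟨y, hy, hyx⟩ := q5
  have hxe : (l1 + l2 + l3 + l4 + |x 2| + |x 3|) • y = x := by
    refine hyx.trans ?_
    conv_rhs => rw [eq_pt x, pt_eq, e12, e13, e14, e23, e24, e34]
    module
  rw [← hxe]
  exact convP.smul_mem_of_zero_mem zeroP hy
    ⟨by positivity, by linarith⟩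

theorem sub (x : Fin 8 → ℝ) (hx : x ∈ P) : InR 1 x := by
  have h : P ⊆ {x | InR 1 x} := by
    apply convexHull_min
    · rintro _ ⟨s, hs, rfl⟩
      have h1 : InZ 1 s := ((mem_S_iff s).1 hs).2
      simp only [Set.mem_ofPred_eq, InR, r1, r2, r3, r4]
      simp only [InZ, y1, y2, y3, y4] at h1
      exact_mod_cast h1
    · intro u hu v hv a b ha hb hab
      have key : ∀ p q : ℝ, |a * p + b * q| ≤ a * |p| + b * |q| := by
        intro p q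
        calc |a * p + b * q| ≤ |a * p| + |b * q| := abs_add_le _ _
          _ = a * |p| + b * |q| := by rw [abs_mul, abs_mul, abs_of_nonneg ha, abs_of_nonneg hb]
      have k1 : r1 (a • u + b • v) = a * r1 u + b * r1 v := by
        simp only [r1, Pi.add_apply, Pi.smul_apply, smul_eq_mul]; ring
      have k2 : r2 (a • u + b • v) = a * r2 u + b * r2 v := by
        simp only [r2, Pi.add_apply, Pi.smul_apply, smul_eq_mul]; ring
      have k3 : r3 (a • u + b • v) = a * r3 u + b * r3 v := by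
        simp only [r3, Pi.add_apply, Pi.smul_apply, smul_eq_mul]; ring
      have k4 : r4 (a • u + b • v) = a * r4 u + b * r4 v := by
        simp only [r4, Pi.add_apply, Pi.smul_apply, smul_eq_mul]; ring
      obtain ⟨u1, u2, u3, u4, u5, u6, u7⟩ := hu
      obtain ⟨v1, v2, v3, v4, v5, v6, v7⟩ := hv
      have w0 := key (u 0) (v 0)
      have w1 := key (u 1) (v 1)
      have w2 := key (u 2) (v 2)
      have w3 := key (u 3) (v 3)
      have z1 := key (r1 u) (r1 v)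
      have z2 := key (r2 u) (r2 v)
      have z3 := key (r3 u) (r3 v)
      have z4 := key (r4 u) (r4 v)
      change InR 1 (a • u + b • v)
      simp only [InR, k1, k2, k3, k4, Pi.add_apply, Pi.smul_apply, smul_eq_mul]
      have comb : ∀ p q c : ℝ, p ≤ c → q ≤ c → a * p + b * q ≤ c := by
        intro p q c hp hq
        calc a * p + b * q ≤ a * c + b * c :=
              add_le_add (mul_le_mul_of_nonneg_left hp ha) (mul_le_mul_of_nonneg_left hq hb)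
          _ = c := by rw [← add_mul, hab, one_mul]
      have t1 := comb _ _ _ u1 v1
      have t2 := comb _ _ _ u2 v2
      have t3 := comb _ _ _ u3 v3
      have t4 := comb _ _ _ u4 v4
      have t5 := comb _ _ _ u5 v5
      have t6 := comb _ _ _ u6 v6
      have t7 := comb _ _ _ u7 v7
      refine ⟨by linarith, by linarith, by linarith, by linarith, by linarith, by linarith,
        by linarith⟩
  exact h hx

theorem tHull : Pool.Agent.H972ST.THull := fun hT =>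
  Set.Subset.antisymm (fun x hx => sub x hx) (fun x hx => sup hT x hx)

end Pool.Agent.H66R3.ST
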